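import Mathlib
import Pool.Agent.H82.G.R_seed8.H496R3.ZS.Stmt

/-!
Subgroups of amenable subgroups are amenable (Foelner condition).
-/

set_option autoImplicit false

namespace Pool.Agent.H82.ZC

open scoped Pointwise symmDiff
open Pool.Agent.H496R3.ZS (IsAmenable)

variable {G : Type} [Group G]

open Classical in
/-- The Foelner condition for a subgroup, in terms of finite subsets of the ambient group. -/
def Fol (C : Subgroup G) : Prop :=
  ∀ (S : Finset G) (ε : ℝ), 0 < ε → (∀ s ∈ S, s ∈ C) → ∃ F : Finset G, F.Nonempty ∧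
    (∀ f ∈ F, f ∈ C) ∧ ∀ s ∈ S, ((F.filter (fun f => s * f ∉ F)).card : ℝ) ≤ ε * F.card

lemma smul_finset_diff_card [DecidableEq G] (F : Finset G) (s : G) :
    (((s • (F : Set G)) \ (F : Set G))).ncard = (F.filter (fun f => s * f ∉ F)).card := by
  have h : (s • (F : Set G)) \ (F : Set G) =
      (fun f => s * f) '' ((F.filter (fun f => s * f ∉ F) : Finset G) : Set G) := by
    ext x
    constructor
    · rintro ⟨⟨f, hf, rfl⟩, hx⟩
      exact ⟨f, by
        rw [Finset.coe_filter]
        exact ⟨hf, hx⟩, rfl⟩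
    · rintro ⟨f, hf, rfl⟩
      rw [Finset.coe_filter] at hf
      exact ⟨⟨f, hf.1, rfl⟩, hf.2⟩
  rw [h, Set.ncard_image_of_injective _ (mul_right_injective s), Set.ncard_coe_finset]

lemma diff_smul_card [DecidableEq G] (F : Finset G) (s : G) :
    (((F : Set G) \ (s • (F : Set G)))).ncard = (F.filter (fun f => s⁻¹ * f ∉ F)).card := by
  have h : (F : Set G) \ (s • (F : Set G)) =
      ((F.filter (fun f => s⁻¹ * f ∉ F) : Finset G) : Set G) := by
    ext x
    rw [Finset.coe_filter]
    constructor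
    · rintro ⟨hx, h2⟩
      refine ⟨hx, fun h3 => h2 ⟨s⁻¹ * x, h3, ?_⟩⟩
      simp
    · rintro ⟨hx, h2⟩
      refine ⟨hx, ?_⟩
      rintro ⟨y, hy, rfl⟩
      refine h2 ?_
      simpa using hy
  rw [h, Set.ncard_coe_finset]

theorem fol_of_isAmenable {C : Subgroup G} (hC : IsAmenable C) : Fol C := by
  classical
  intro S ε hε hS
  let S' : Finset C := S.attach.image fun s => (⟨s.1, hS s.1 s.2⟩ : C)
  obtain ⟨F, hF, h⟩ := hC S' ε hε
  refine ⟨F.map ⟨Subtype.val, Subtype.val_injective⟩, hF.map, ?_, ?_⟩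
  · intro f hf
    rw [Finset.mem_map] at hf
    obtain ⟨a, -, rfl⟩ := hf
    exact a.2
  · intro s hs
    have h1 := h ⟨s, hS s hs⟩ (Finset.mem_image.2 ⟨⟨s, hs⟩, Finset.mem_attach _ _, rfl⟩)
    rw [Finset.card_map]
    refine le_trans ?_ h1
    have h2 : (F.filter (fun f => (⟨s, hS s hs⟩ : C) * f ∉ F)).card ≤
        (((⟨s, hS s hs⟩ : C) • (F : Set C)) ∆ (F : Set C)).ncard := by
      rw [← smul_finset_diff_card]
      refine Set.ncard_le_ncard (fun x hx => Or.inl hx) ?_
      exact Set.Finite.symmDiff (F.finite_toSet.smul_set) F.finite_toSet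
    have h3 : ((F.map ⟨Subtype.val, Subtype.val_injective⟩).filter
        (fun f => s * f ∉ F.map ⟨Subtype.val, Subtype.val_injective⟩)).card ≤
        (F.filter (fun f => (⟨s, hS s hs⟩ : C) * f ∉ F)).card := by
      rw [Finset.filter_map, Finset.card_map]
      refine Finset.card_le_card fun x hx => ?_
      rw [Finset.mem_filter] at hx ⊢
      refine ⟨hx.1, fun h4 => hx.2 ?_⟩
      exact Finset.mem_map.2 ⟨_, h4, rfl⟩
    exact_mod_cast h3.trans h2

theorem isAmenable_of_fol {C : Subgroup G} (hC : Fol C) : IsAmenable C := by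
  classical
  intro S ε hε
  obtain ⟨F, hF, hFC, h⟩ := hC ((S.image Subtype.val) ∪ (S.image fun s => (s.1)⁻¹)) (ε / 2)
    (half_pos hε) (by
      intro s hs
      rw [Finset.mem_union, Finset.mem_image, Finset.mem_image] at hs
      rcases hs with ⟨a, -, rfl⟩ | ⟨a, -, rfl⟩
      · exact a.2
      · exact C.inv_mem a.2)
  let F' : Finset C := F.attach.image fun f => (⟨f.1, hFC f.1 f.2⟩ : C)
  have hmem : ∀ x : C, x ∈ F' ↔ x.1 ∈ F := by
    intro x
    constructor
    · intro hx
      obtain ⟨a, -, rfl⟩ := Finset.mem_image.1 hx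
      exact a.2
    · intro hx
      exact Finset.mem_image.2 ⟨⟨x.1, hx⟩, Finset.mem_attach _ _, rfl⟩
  have hmap : F'.map ⟨Subtype.val, Subtype.val_injective⟩ = F := by
    ext x
    rw [Finset.mem_map]
    constructor
    · rintro ⟨a, ha, rfl⟩
      exact (hmem a).1 ha
    · intro hx
      exact ⟨⟨x, hFC x hx⟩, (hmem _).2 hx, rfl⟩
  have hcard : F'.card = F.card := by rw [← hmap, Finset.card_map]
  have key : ∀ s : C, (F'.filter (fun f => s * f ∉ F')).card =
      (F.filter (fun f => s.1 * f ∉ F)).card := by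
    intro s
    rw [← Finset.card_map ⟨Subtype.val, Subtype.val_injective⟩]
    congr 1
    ext x
    rw [Finset.mem_map, Finset.mem_filter]
    constructor
    · rintro ⟨a, ha, rfl⟩
      rw [Finset.mem_filter] at ha
      refine ⟨(hmem a).1 ha.1, fun h4 => ha.2 ((hmem _).2 h4)⟩
    · rintro ⟨hx, h2⟩
      refine ⟨⟨x, hFC x hx⟩, ?_, rfl⟩
      rw [Finset.mem_filter]
      exact ⟨(hmem _).2 hx, fun h4 => h2 ((hmem _).1 h4)⟩
  refine ⟨F', ?_, fun s hs => ?_⟩
  · rw [← Finset.card_pos, hcard, Finset.card_pos]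
    exact hF
  · have h1 := h s.1 (Finset.mem_union_left _ (Finset.mem_image_of_mem _ hs))
    have h2 := h (s.1)⁻¹ (Finset.mem_union_right _ (Finset.mem_image.2 ⟨s, hs, rfl⟩))
    have h3 : (((s • (F' : Set C)) ∆ (F' : Set C))).ncard ≤
        (((s • (F' : Set C)) \ (F' : Set C))).ncard +
          (((F' : Set C) \ (s • (F' : Set C)))).ncard := Set.ncard_union_le _ _
    rw [smul_finset_diff_card, diff_smul_card, key, key] at h3
    rw [hcard]
    have h4 : (((((s • (F' : Set C)) ∆ (F' : Set C))).ncard : ℕ) : ℝ) ≤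
        ((F.filter (fun f => s.1 * f ∉ F)).card : ℝ) +
          ((F.filter (fun f => (s⁻¹ : C).1 * f ∉ F)).card : ℝ) := by exact_mod_cast h3
    have h5 : ((s⁻¹ : C) : G) = (s.1)⁻¹ := rfl
    rw [h5] at h4
    linarith

theorem Fol.mono {C D : Subgroup G} (hC : Fol C) (hD : D ≤ C) : Fol D := by
  classical
  intro S ε hε hS
  obtain ⟨F, hF, hFC, h⟩ := hC S (ε / (S.card + 1)) (by positivity) fun s hs => hD (hS s hs)
  -- the classes
  obtain ⟨cl, hcl⟩ : ∃ cl : G → Quotient (QuotientGroup.rightRel D), ∀ x, cl x = Quotient.mk _ x :=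
    ⟨_, fun _ => rfl⟩
  have hcl2 : ∀ x y, cl x = cl y ↔ y * x⁻¹ ∈ D := by
    intro x y
    rw [hcl, hcl, Quotient.eq]
    exact QuotientGroup.rightRel_apply
  obtain ⟨T, hT⟩ : ∃ T : Finset (Quotient (QuotientGroup.rightRel D)), T = F.image cl := ⟨_, rfl⟩
  have h1 : ∑ q ∈ T, ∑ s ∈ S, (((F.filter (fun f => cl f = q)).filter (fun f => s * f ∉ F)).card : ℝ)
      ≤ ∑ q ∈ T, ε * ((F.filter (fun f => cl f = q)).card : ℝ) := by
    rw [Finset.sum_comm, ← Finset.mul_sum]
    have e1 : ∑ q ∈ T, ((F.filter (fun f => cl f = q)).card : ℝ) = F.card := by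
      rw [Finset.card_eq_sum_card_image cl F, hT]
      push_cast
      rfl
    have e2 : ∀ s ∈ S, ∑ q ∈ T, (((F.filter (fun f => cl f = q)).filter
        (fun f => s * f ∉ F)).card : ℝ) ≤ (ε / (S.card + 1)) * F.card := by
      intro s hs
      refine le_trans (le_of_eq ?_) (h s hs)
      have e3 : (F.filter (fun f => s * f ∉ F)).card =
          ∑ q ∈ T, ((F.filter (fun f => s * f ∉ F)).filter (fun f => cl f = q)).card := by
        refine Finset.card_eq_sum_card_fiberwise ?_
        intro f hf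
        rw [hT]
        exact Finset.mem_coe.2 (Finset.mem_image_of_mem _ (Finset.mem_of_mem_filter f hf))
      rw [e3]
      push_cast
      refine Finset.sum_congr rfl fun q _ => ?_
      rw [Finset.filter_filter, Finset.filter_filter]
      congr 2
      ext f
      rw [Finset.mem_filter, Finset.mem_filter]
      tauto
    rw [e1]
    refine (Finset.sum_le_sum e2).trans ?_
    rw [Finset.sum_const, nsmul_eq_mul]
    have h5 : (0 : ℝ) ≤ S.card := by positivity
    have h6 : (0 : ℝ) ≤ F.card := by positivity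
    have h7 : (S.card : ℝ) * (ε / (S.card + 1) * F.card) = (S.card / (S.card + 1)) * (ε * F.card) := by
      ring
    rw [h7]
    have h8 : (S.card : ℝ) / (S.card + 1) ≤ 1 := by
      rw [div_le_one (by positivity)]; linarith
    nlinarith [mul_nonneg hε.le h6]
  have hTne : T.Nonempty := by rw [hT]; exact hF.image _
  obtain ⟨q, hq, h2⟩ := Finset.exists_le_of_sum_le hTne h1
  rw [hT] at hq
  obtain ⟨f0, hf0, rfl⟩ := Finset.mem_image.1 hq
  refine ⟨(F.filter (fun f => cl f = cl f0)).image (fun f => f * f0⁻¹), ?_, ?_, ?_⟩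
  · exact ⟨f0 * f0⁻¹, Finset.mem_image_of_mem _ (Finset.mem_filter.2 ⟨hf0, rfl⟩)⟩
  · intro x hx
    obtain ⟨f, hf, rfl⟩ := Finset.mem_image.1 hx
    have := (Finset.mem_filter.1 hf).2
    rw [eq_comm, hcl2] at this
    exact this
  · intro s hs
    have hinj : Function.Injective (fun f : G => f * f0⁻¹) := mul_left_injective _
    rw [Finset.card_image_of_injective _ hinj]
    refine le_trans ?_ ((Finset.single_le_sum (f := fun s => (((F.filter
      (fun f => cl f = cl f0)).filter (fun f => s * f ∉ F)).card : ℝ)) (fun _ _ => by positivity)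
      hs).trans h2)
    have h9 : (((F.filter (fun f => cl f = cl f0)).image (fun f => f * f0⁻¹)).filter
        (fun f => s * f ∉ (F.filter (fun f => cl f = cl f0)).image (fun f => f * f0⁻¹))) ⊆
        ((F.filter (fun f => cl f = cl f0)).filter (fun f => s * f ∉ F)).image
          (fun f => f * f0⁻¹) := by
      intro x hx
      rw [Finset.mem_filter] at hx
      obtain ⟨f, hf, rfl⟩ := Finset.mem_image.1 hx.1
      refine Finset.mem_image_of_mem _ (Finset.mem_filter.2 ⟨hf, fun h10 => hx.2 ?_⟩)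
      rw [← mul_assoc]
      refine Finset.mem_image_of_mem _ (Finset.mem_filter.2 ⟨h10, ?_⟩)
      rw [← (Finset.mem_filter.1 hf).2, hcl2, mul_inv_rev, ← mul_assoc, mul_inv_cancel, one_mul]
      exact D.inv_mem (hS s hs)
    have h10 := Finset.card_le_card h9
    rw [Finset.card_image_of_injective _ hinj] at h10
    exact_mod_cast h10

theorem isAmenable_mono {C D : Subgroup G} (hC : IsAmenable C) (hD : D ≤ C) : IsAmenable D :=
  isAmenable_of_fol ((fol_of_isAmenable hC).mono hD)

end Pool.Agent.H82.ZC
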