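import Pool.Agent.H82.ZC.Defs
import Pool.Agent.H82.G.R_seed8.H919R4.AS.Final

set_option autoImplicit false

open scoped Matrix

namespace Pool.Agent.H82.ZC

open Pool.Agent.H919R4.ZS (FinRes toRed eps augm eps_d exists_lift eps_sub eps_smul eps_zsmul
  eps_single augm_single d_mul_d)
open Pool.Agent.H919R4.AS (permZ ringZ cobdZ cohomologyZ coboundariesZ)
open Pool.Agent.H496R3.ZS (IsAmenable)

variable {G : Type} [Group G]

lemma ringZ_single {Z : Type} [MulAction G Z] (g : G) (r : ℤ) (x : Z →₀ ℤ) :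
    ringZ G Z (MonoidAlgebra.single g r) x = r • x.mapDomain (fun z => g • z) := by
  have e4 : ringZ G Z (MonoidAlgebra.single g r) =
      ((r : ℤ) : AddMonoid.End (Z →₀ ℤ)) * permZ G Z g :=
    MonoidAlgebra.liftNCRingHom_single _ _ _ _ _
  rw [e4, ← zsmul_eq_mul]
  rfl

lemma end_sum {ι M : Type*} [AddCommGroup M] (s : Finset ι) (f : ι → AddMonoid.End M) (x : M) :
    (∑ i ∈ s, f i) x = ∑ i ∈ s, f i x := by
  classical
  induction s using Finset.induction_on with
  | empty => simp
  | insert a s ha ih =>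
    rw [Finset.sum_insert ha, Finset.sum_insert ha, ← ih]
    rfl

lemma ringZ_add {Z : Type} [MulAction G Z] (a b : MonoidAlgebra ℤ G) (x : Z →₀ ℤ) :
    ringZ G Z (a + b) x = ringZ G Z a x + ringZ G Z b x := by
  rw [map_add]; rfl

/-- equivariance of an additive map between permutation modules -/
def Eqv {Z Z' : Type} [MulAction G Z] [MulAction G Z'] (φ : (Z →₀ ℤ) →+ (Z' →₀ ℤ)) : Prop :=
  ∀ (g : G) (x : Z →₀ ℤ), φ (x.mapDomain (fun z => g • z)) = (φ x).mapDomain (fun z => g • z)

lemma ringZ_nat {Z Z' : Type} [MulAction G Z] [MulAction G Z'] {φ : (Z →₀ ℤ) →+ (Z' →₀ ℤ)}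
    (hφ : Eqv (G := G) φ) (a : MonoidAlgebra ℤ G) (x : Z →₀ ℤ) :
    φ (ringZ G Z a x) = ringZ G Z' a (φ x) := by
  refine MonoidAlgebra.induction_linear a ?_ ?_ ?_
  · rw [map_zero, map_zero]; simp
  · intro a b ha hb
    rw [map_add, map_add]
    change φ (ringZ G Z a x + ringZ G Z b x) = ringZ G Z' a (φ x) + ringZ G Z' b (φ x)
    rw [map_add, ha, hb]
  · intro g r
    rw [ringZ_single, ringZ_single, map_zsmul, hφ]

variable (X : FinRes G)

lemma cobdZ_nat {Z Z' : Type} [MulAction G Z] [MulAction G Z'] {φ : (Z →₀ ℤ) →+ (Z' →₀ ℤ)}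
    (hφ : Eqv (G := G) φ) (i : ℕ) (y : Fin (X.n i) → (Z →₀ ℤ)) :
    cobdZ X Z' i (fun j => φ (y j)) = fun k => φ (cobdZ X Z i y k) := by
  funext k
  change ∑ j, ringZ G Z' (X.d i k j) (φ (y j)) = φ (∑ j, ringZ G Z (X.d i k j) (y j))
  rw [map_sum]
  exact Finset.sum_congr rfl fun j _ => (ringZ_nat hφ _ _).symm

lemma coboundariesZ_nat {Z Z' : Type} [MulAction G Z] [MulAction G Z']
    {φ : (Z →₀ ℤ) →+ (Z' →₀ ℤ)} (hφ : Eqv (G := G) φ) (i : ℕ) {y : Fin (X.n i) → (Z →₀ ℤ)}
    (hy : y ∈ coboundariesZ X Z i) : (fun j => φ (y j)) ∈ coboundariesZ X Z' i := by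
  cases i with
  | zero =>
    have : y = 0 := hy
    subst this
    have : (fun j => φ ((0 : Fin (X.n 0) → (Z →₀ ℤ)) j)) = 0 := by
      funext j; simp
    rw [this]
    exact AddSubgroup.zero_mem _
  | succ i =>
    obtain ⟨v, rfl⟩ := hy
    exact ⟨fun j => φ (v j), cobdZ_nat X hφ i v⟩

lemma cobdZ_cobdZ {Z : Type} [MulAction G Z] (i : ℕ) (y : Fin (X.n i) → (Z →₀ ℤ)) :
    cobdZ X Z (i + 1) (cobdZ X Z i y) = 0 := by
  funext k
  change ∑ j, ringZ G Z (X.d (i + 1) k j) (∑ l, ringZ G Z (X.d i j l) (y l)) = 0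
  have e : ∀ l, ∑ j, X.d (i + 1) k j * X.d i j l = 0 := by
    intro l
    have := congrFun (congrFun (d_mul_d X i) k) l
    rwa [Matrix.mul_apply] at this
  calc ∑ j, ringZ G Z (X.d (i + 1) k j) (∑ l, ringZ G Z (X.d i j l) (y l))
      = ∑ j, ∑ l, ringZ G Z (X.d (i + 1) k j * X.d i j l) (y l) := by
        refine Finset.sum_congr rfl fun j _ => ?_
        rw [map_sum]
        refine Finset.sum_congr rfl fun l _ => ?_
        rw [map_mul]
        rfl
    _ = ∑ l, ringZ G Z (∑ j, X.d (i + 1) k j * X.d i j l) (y l) := by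
        rw [Finset.sum_comm]
        refine Finset.sum_congr rfl fun l _ => ?_
        rw [map_sum, end_sum]
    _ = 0 := by
        refine Finset.sum_eq_zero fun l _ => ?_
        rw [e l, map_zero]
        rfl

/-- rational vanishing of `H^i(G; ℤ[Z])` for a `G`-set `Z` -/
def RV (Z : Type) [MulAction G Z] (i : ℕ) : Prop :=
  ∀ z : Fin (X.n i) → (Z →₀ ℤ), cobdZ X Z i z = 0 →
    ∃ N : ℤ, N ≠ 0 ∧ N • z ∈ coboundariesZ X Z i

lemma mapDomain_smul_apply {Z : Type} [MulAction G Z] (g : G) (x : Z →₀ ℤ) (z : Z) :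
    x.mapDomain (fun z => g • z) z = x (g⁻¹ • z) := by
  have := Finsupp.mapDomain_apply (MulAction.injective g) x (g⁻¹ • z)
  rwa [smul_inv_smul] at this

section orbit

variable {E : Type} [MulAction G E]

/-- the inclusion of an orbit -/
noncomputable def inc (e : E) : (G ⧸ MulAction.stabilizer G e →₀ ℤ) →+ (E →₀ ℤ) :=
  Finsupp.mapDomain.addMonoidHom (MulAction.ofQuotientStabilizer G e)

/-- the restriction to an orbit -/
noncomputable def res (e : E) : (E →₀ ℤ) →+ (G ⧸ MulAction.stabilizer G e →₀ ℤ) :=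
  Finsupp.comapDomain.addMonoidHom (MulAction.injective_ofQuotientStabilizer G e)

lemma res_apply (e : E) (x : E →₀ ℤ) (q : G ⧸ MulAction.stabilizer G e) :
    res (G := G) e x q = x (MulAction.ofQuotientStabilizer G e q) := rfl

lemma inc_eqv (e : E) : Eqv (G := G) (inc (G := G) e) := by
  intro g x
  change Finsupp.mapDomain _ (Finsupp.mapDomain _ x) = Finsupp.mapDomain _ (Finsupp.mapDomain _ x)
  rw [← Finsupp.mapDomain_comp, ← Finsupp.mapDomain_comp]
  congr 1
  funext q
  exact MulAction.ofQuotientStabilizer_smul G e g q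

lemma res_eqv (e : E) : Eqv (G := G) (res (G := G) e) := by
  intro g x
  ext q
  rw [res_apply, mapDomain_smul_apply, mapDomain_smul_apply, res_apply,
    MulAction.ofQuotientStabilizer_smul]

lemma inc_res (e : E) (x : E →₀ ℤ) (a : E) [Decidable (a ∈ MulAction.orbit G e)] :
    inc (G := G) e (res (G := G) e x) a = if a ∈ MulAction.orbit G e then x a else 0 := by
  split_ifs with h
  · obtain ⟨g, rfl⟩ := h
    have e1 : (fun g : G => g • e) g =
        MulAction.ofQuotientStabilizer G e (g : G ⧸ MulAction.stabilizer G e) := rfl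
    rw [e1]
    change Finsupp.mapDomain _ _ _ = _
    rw [Finsupp.mapDomain_apply (MulAction.injective_ofQuotientStabilizer G e), res_apply]
  · change Finsupp.mapDomain _ _ _ = _
    rw [Finsupp.mapDomain_of_notMem_range]
    rintro ⟨q, rfl⟩
    exact h (MulAction.ofQuotientStabilizer_mem_orbit G e q)

theorem RV_of_orbits (i : ℕ) (h : ∀ e : E, RatVanish X (MulAction.stabilizer G e) i) :
    RV X E i := by
  classical
  intro z hz
  obtain ⟨S, hS⟩ : ∃ S : Finset (MulAction.orbitRel.Quotient G E),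
      S = (Finset.univ.biUnion fun j : Fin (X.n i) => (z j).support).image
        (fun e => (Quotient.mk'' e : MulAction.orbitRel.Quotient G E)) := ⟨_, rfl⟩
  choose N hN0 hN using fun o : MulAction.orbitRel.Quotient G E =>
    h o.out (fun j => res (G := G) o.out (z j)) (by
      rw [cobdZ_nat X (res_eqv (G := G) o.out), hz]
      funext k
      exact map_zero _)
  refine ⟨∏ o ∈ S, N o, Finset.prod_ne_zero_iff.2 fun o _ => hN0 o, ?_⟩
  have key : (∏ o ∈ S, N o) • z = ∑ o ∈ S, (fun j => inc (G := G) o.out (((∏ o ∈ S, N o) •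
      (fun j => res (G := G) o.out (z j)) : Fin (X.n i) → _) j)) := by
    funext j
    rw [Finset.sum_apply]
    ext a
    rw [Finsupp.finsetSum_apply]
    have e1 : ∀ o : MulAction.orbitRel.Quotient G E, (inc (G := G) o.out (((∏ o ∈ S, N o) •
        (fun j => res (G := G) o.out (z j)) : Fin (X.n i) → _) j)) a =
        if a ∈ MulAction.orbit G o.out then (∏ o ∈ S, N o) * z j a else 0 := by
      intro o
      rw [Pi.smul_apply, map_zsmul, Finsupp.smul_apply, inc_res]
      split_ifs <;> simp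
    rw [Finset.sum_congr rfl fun o _ => e1 o]
    have e2 : ∀ o : MulAction.orbitRel.Quotient G E, a ∈ MulAction.orbit G o.out ↔
        o = Quotient.mk'' a := by
      intro o
      constructor
      · intro h1
        have h2 : (Quotient.mk'' a : MulAction.orbitRel.Quotient G E) = Quotient.mk'' o.out :=
          Quotient.sound' h1
        rw [h2]
        exact (Quotient.out_eq' o).symm
      · rintro rfl
        have h2 := Quotient.out_eq' (Quotient.mk'' a : MulAction.orbitRel.Quotient G E)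
        have h3 : (Quotient.mk'' a : MulAction.orbitRel.Quotient G E) = Quotient.mk'' _ := h2.symm
        exact Quotient.exact' h3
    simp only [e2]
    rw [Finset.sum_ite_eq' S (Quotient.mk'' a : MulAction.orbitRel.Quotient G E)]
    split_ifs with h3
    · rfl
    · have : z j a = 0 := by
        by_contra h4
        apply h3
        rw [hS, Finset.mem_image]
        exact ⟨a, Finset.mem_biUnion.2 ⟨j, Finset.mem_univ _, Finsupp.mem_support_iff.2 h4⟩, rfl⟩
      rw [Pi.smul_apply, Finsupp.smul_apply, this, smul_zero]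
  rw [key]
  refine AddSubgroup.sum_mem _ fun o ho => ?_
  refine coboundariesZ_nat X (inc_eqv (G := G) o.out) i ?_
  rw [← Finset.mul_prod_erase S N ho, mul_comm, mul_smul]
  exact AddSubgroup.zsmul_mem _ (hN o) _

end orbit

/-! ### Degree zero -/

lemma ratVanish_zero (C : Subgroup G) (hC : Infinite (G ⧸ C)) : RatVanish X C 0 := by
  intro y hy
  refine ⟨1, one_ne_zero, ?_⟩
  -- the homomorphism `x ↦ ∑ x_j y_j`
  obtain ⟨Φ, hΦ⟩ : ∃ Φ : (Fin (X.n 0) → MonoidAlgebra ℤ G) → (G ⧸ C →₀ ℤ),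
      ∀ x, Φ x = ∑ j, ringZ G (G ⧸ C) (x j) (y j) := ⟨_, fun _ => rfl⟩
  have hsub : ∀ a b, Φ (a - b) = Φ a - Φ b := by
    intro a b
    rw [hΦ, hΦ, hΦ, ← Finset.sum_sub_distrib]
    refine Finset.sum_congr rfl fun j _ => ?_
    rw [Pi.sub_apply, map_sub]
    rfl
  have hzs : ∀ (m : ℤ) a, Φ (m • a) = m • Φ a := by
    intro m a
    rw [hΦ, hΦ, Finset.smul_sum]
    refine Finset.sum_congr rfl fun j _ => ?_
    rw [Pi.smul_apply, map_zsmul]
    rfl
  have hg : ∀ (g : G) a, Φ ((MonoidAlgebra.single g 1 : MonoidAlgebra ℤ G) • a) =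
      (Φ a).mapDomain (fun z => g • z) := by
    intro g a
    rw [hΦ, hΦ]
    have e : ∀ f : G ⧸ C →₀ ℤ, f.mapDomain (fun z => g • z) = permZ G (G ⧸ C) g f := fun _ => rfl
    rw [e, map_sum]
    refine Finset.sum_congr rfl fun j _ => ?_
    rw [Pi.smul_apply, smul_eq_mul, map_mul]
    change ringZ G (G ⧸ C) (MonoidAlgebra.single g 1) (ringZ G (G ⧸ C) (a j) (y j)) = _
    rw [ringZ_single, one_smul]
    rfl
  have h0 : ∀ x, eps X x = 0 → Φ x = 0 := by
    intro x hx
    obtain ⟨w, rfl⟩ := exists_lift X x hx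
    rw [hΦ]
    calc ∑ j, ringZ G (G ⧸ C) ((w ᵥ* X.d 0) j) (y j)
        = ∑ j, ∑ k, ringZ G (G ⧸ C) (w k * X.d 0 k j) (y j) := by
          refine Finset.sum_congr rfl fun j _ => ?_
          have : (w ᵥ* X.d 0) j = ∑ k, w k * X.d 0 k j := rfl
          rw [this, map_sum, end_sum]
      _ = ∑ k, ringZ G (G ⧸ C) (w k) (cobdZ X (G ⧸ C) 0 y k) := by
          rw [Finset.sum_comm]
          refine Finset.sum_congr rfl fun k _ => ?_
          change _ = ringZ G (G ⧸ C) (w k) (∑ j, ringZ G (G ⧸ C) (X.d 0 k j) (y j))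
          rw [map_sum]
          refine Finset.sum_congr rfl fun j _ => ?_
          rw [map_mul]
          rfl
      _ = 0 := by
          rw [hy]
          simp
  obtain ⟨x0, hx0⟩ := X.surj
  change eps X x0 = 1 at hx0
  have hinv : ∀ g : G, (Φ x0).mapDomain (fun z => g • z) = Φ x0 := by
    intro g
    have := h0 ((MonoidAlgebra.single g 1 : MonoidAlgebra ℤ G) • x0 - x0) (by
      rw [eps_sub, eps_smul, augm_single, hx0]; norm_num)
    rw [hsub, hg, sub_eq_zero] at this
    exact this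
  have hz : Φ x0 = 0 := by
    by_contra hne
    obtain ⟨q, hq⟩ := Finsupp.ne_iff.1 hne
    have hall : ∀ q' : G ⧸ C, Φ x0 q' ≠ 0 := by
      intro q'
      obtain ⟨g, hg'⟩ := MulAction.exists_smul_eq G q q'
      have h2 := DFunLike.congr_fun (hinv g) q'
      rw [mapDomain_smul_apply, ← hg', inv_smul_smul] at h2
      rw [← hg', ← h2]
      exact hq
    have : (Set.univ : Set (G ⧸ C)) ⊆ ↑(Φ x0).support := fun q' _ =>
      Finsupp.mem_support_iff.2 (hall q')
    exact Set.infinite_univ ((Finset.finite_toSet _).subset this)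
  have hy0 : y = 0 := by
    funext j
    have h3 := h0 (Pi.single j 1 - eps X (Pi.single j 1) • x0) (by
      rw [eps_sub, eps_zsmul, hx0]; ring)
    rw [hsub, hzs, hz, smul_zero, sub_zero, hΦ] at h3
    rw [Finset.sum_eq_single j] at h3
    · rw [Pi.single_eq_same, map_one] at h3
      exact h3
    · intro b _ hb
      rw [Pi.single_eq_of_ne hb, map_zero]
      rfl
    · intro h; exact absurd (Finset.mem_univ j) h
  rw [hy0, smul_zero]
  exact AddSubgroup.zero_mem _

/-! ### The zigzag -/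

section zigzag

variable (K : GComplex G)

lemma bd_eqv (i : ℕ) : Eqv (G := G) (K.bd i) := fun g x => K.bd_smul i g x

/-- the sum of the coefficients -/
noncomputable def sm (Z : Type) : (Z →₀ ℤ) →+ ℤ where
  toFun x := x.sum fun _ a => a
  map_zero' := by simp
  map_add' x y := by
    rw [Finsupp.sum_add_index'] <;> simp

lemma sm_ringZ {Z : Type} [MulAction G Z] (a : MonoidAlgebra ℤ G) (x : Z →₀ ℤ) :
    sm Z (ringZ G Z a x) = augm G a * sm Z x := by
  refine MonoidAlgebra.induction_linear a ?_ ?_ ?_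
  · rw [map_zero, map_zero, zero_mul]; exact map_zero _
  · intro a b ha hb
    rw [ringZ_add, map_add, map_add, add_mul, ← ha, ← hb]
  · intro g r
    rw [ringZ_single, map_zsmul, augm_single, smul_eq_mul]
    congr 1
    change Finsupp.sum (Finsupp.mapDomain (fun z => g • z) x) (fun _ a => a) =
      Finsupp.sum x (fun _ a => a)
    rw [Finsupp.sum_mapDomain_index] <;> simp

/-- a common multiple -/
lemma common {n : ℕ} (P : Fin n → ℤ → Prop) (hP : ∀ k a b, P k a → P k (b * a))
    (h : ∀ k, ∃ N : ℤ, N ≠ 0 ∧ P k N) : ∃ N : ℤ, N ≠ 0 ∧ ∀ k, P k N := by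
  classical
  choose N h0 hN using h
  refine ⟨∏ k, N k, Finset.prod_ne_zero_iff.2 fun k _ => h0 k, fun k => ?_⟩
  rw [← Finset.mul_prod_erase Finset.univ N (Finset.mem_univ k), mul_comm]
  exact hP _ _ _ (hN k)

/-- the upward part of the zigzag -/
lemma up (m : ℕ) : ∃ (N : ℤ) (c : ∀ i : ℕ, Fin (X.n i) → (K.E i →₀ ℤ)), N ≠ 0 ∧
    (∀ j, sm _ (c 0 j) = N * X.aug j) ∧
    ∀ i < m, ∀ k, cobdZ X (K.E i) i (c i) k = K.bd i (c (i + 1) k) := by
  classical
  induction m with
  | zero =>
    obtain ⟨e0⟩ := K.nonempty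
    refine ⟨1, fun i => match i with
      | 0 => fun j => Finsupp.single e0 (X.aug j)
      | i + 1 => fun _ => 0, one_ne_zero, ?_, ?_⟩
    · intro j
      rw [one_mul]
      change Finsupp.sum (Finsupp.single e0 (X.aug j)) (fun _ a => a) = _
      simp
    · intro i hi; omega
  | succ m ih =>
    obtain ⟨N, c, hN, h0, hc⟩ := ih
    obtain ⟨N', hN', hk⟩ : ∃ N' : ℤ, N' ≠ 0 ∧ ∀ k, ∃ y, K.bd m y =
        N' • cobdZ X (K.E m) m (c m) k := by
      refine common (fun k N' => ∃ y, K.bd m y = N' • cobdZ X (K.E m) m (c m) k) ?_ ?_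
      · rintro k a b ⟨y, hy⟩
        exact ⟨b • y, by rw [map_zsmul, hy, mul_smul]⟩
      · intro k
        cases m with
        | zero =>
          apply K.exact_zero
          change sm _ (∑ j, ringZ G (K.E 0) (X.d 0 k j) (c 0 j)) = 0
          rw [map_sum]
          have e : ∀ j, sm _ (ringZ G (K.E 0) (X.d 0 k j) (c 0 j)) =
              N * (augm G (X.d 0 k j) * X.aug j) := by
            intro j
            rw [sm_ringZ, h0]; ring
          rw [Finset.sum_congr rfl fun j _ => e j, ← Finset.mul_sum]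
          have h2 := eps_d X (Pi.single k 1)
          have h3 : (Pi.single k 1 : Fin (X.n 1) → MonoidAlgebra ℤ G) ᵥ* X.d 0 = X.d 0 k := by
            funext j; simp [Matrix.vecMul, dotProduct, Pi.single_apply]
          rw [h3] at h2
          change ∑ j, augm G (X.d 0 k j) * X.aug j = 0 at h2
          rw [h2, mul_zero]
        | succ m =>
          apply K.exact_succ
          have h1 := congrFun (cobdZ_nat X (bd_eqv K m) (m + 1) (c (m + 1))) k
          rw [← h1]
          have h2 : (fun j => K.bd m (c (m + 1) j)) = cobdZ X (K.E m) m (c m) := by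
            funext j
            exact (hc m (by omega) j).symm
          rw [h2, cobdZ_cobdZ]
          rfl
    choose y hy using hk
    refine ⟨N' * N, fun i => if h : i = m + 1 then h ▸ y else N' • c i, mul_ne_zero hN' hN, ?_, ?_⟩
    · intro j
      beta_reduce
      rw [dif_neg (by omega)]
      rw [Pi.smul_apply, map_zsmul, h0, smul_eq_mul]; ring
    · intro i hi k
      beta_reduce
      rw [dif_neg (by omega : ¬ i = m + 1)]
      rcases Nat.lt_or_ge i m with h1 | h1
      · rw [dif_neg (by omega : ¬ i + 1 = m + 1), map_zsmul, Pi.smul_apply, Pi.smul_apply,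
          map_zsmul, hc i h1 k]
      · have h2 : i = m := by omega
        subst h2
        rw [dif_pos rfl, map_zsmul, Pi.smul_apply]
        exact (hy k).symm

/-- the downward part of the zigzag -/
lemma down (hK : ∀ i, RV X (K.E i) i) (c : ∀ i : ℕ, Fin (X.n i) → (K.E i →₀ ℤ)) (m : ℕ)
    (hc : ∀ i < m, ∀ k, cobdZ X (K.E i) i (c i) k = K.bd i (c (i + 1) k)) (i : ℕ) (hi : i ≤ m)
    (hm : ∃ (M : ℤ) (b : Fin (X.n m) → (K.E (m + 1) →₀ ℤ)), M ≠ 0 ∧
      cobdZ X (K.E m) m (M • c m - fun j => K.bd m (b j)) = 0) :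
    ∃ (M : ℤ) (b : Fin (X.n i) → (K.E (i + 1) →₀ ℤ)), M ≠ 0 ∧
      cobdZ X (K.E i) i (M • c i - fun j => K.bd i (b j)) = 0 := by
  obtain ⟨s, rfl⟩ := Nat.exists_eq_add_of_le hi
  clear hi
  induction s generalizing i with
  | zero => exact hm
  | succ s ih =>
    have h1 := ih (i + 1) (fun j hj k => hc j (by omega) k) (by
      have e : i + (s + 1) = i + 1 + s := by omega
      rw [e] at hm
      exact hm)
    obtain ⟨M, b, hM, hb⟩ := h1
    obtain ⟨N, hN, b', hb'⟩ := hK (i + 1) _ hb
    refine ⟨N * M, b', mul_ne_zero hN hM, ?_⟩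
    have e1 := cobdZ_nat X (bd_eqv K i) i b'
    rw [map_sub, e1, map_zsmul]
    funext k
    rw [Pi.sub_apply, Pi.smul_apply, hc i (by omega) k, hb', ← map_zsmul, ← map_sub]
    have e2 : (N * M) • c (i + 1) k - (N • (M • c (i + 1) - fun j => K.bd (i + 1) (b j))) k =
        K.bd (i + 1) (N • b k) := by
      rw [Pi.smul_apply, Pi.sub_apply, Pi.smul_apply, smul_sub, mul_smul, map_zsmul]
      abel
    rw [e2, K.bd_bd]
    rfl

theorem contra (hK : ∀ i, RV X (K.E i) i) : False := by
  obtain ⟨N, c, hN, h0, hc⟩ := up X K (X.len + 1)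
  have hn : X.n (X.len + 1) = 0 := X.n_eq_zero _ (by omega)
  obtain ⟨M, b, hM, hb⟩ := down X K hK c (X.len + 1) hc 0 (by omega) ⟨1, 0, one_ne_zero, by
    have : (1 : ℤ) • c (X.len + 1) - (fun j => K.bd (X.len + 1) ((0 : Fin (X.n (X.len + 1)) → _) j))
        = 0 := by
      funext j
      exact absurd j.2 (by omega)
    rw [this, map_zero]⟩
  obtain ⟨N', hN', hz⟩ := hK 0 _ hb
  have hz' : N' • (M • c 0 - fun j => K.bd 0 (b j)) = 0 := hz
  have h2 : ∀ j, N' * (M * (N * X.aug j)) = 0 := by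
    intro j
    have h3 := congrArg (sm (K.E 0)) (congrFun hz' j)
    rw [Pi.smul_apply, Pi.sub_apply, Pi.smul_apply, map_zsmul, map_sub, map_zsmul, h0] at h3
    have h4 : sm (K.E 0) (K.bd 0 (b j)) = 0 := K.aug_bd (b j)
    rw [h4] at h3
    simpa using h3
  obtain ⟨x0, hx0⟩ := X.surj
  have h5 : ∀ j, X.aug j = 0 := by
    intro j
    have := h2 j
    simpa [hN', hM, hN] using this
  rw [Finset.sum_eq_zero (fun j _ => by rw [h5 j, mul_zero])] at hx0
  exact zero_ne_one hx0

end zigzag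

/-- **Main theorem.** -/
theorem main (K : GComplex G)
    (h0 : ∀ v : K.E 0, Infinite (G ⧸ MulAction.stabilizer G v))
    (h12 : ∀ i, i = 1 ∨ i = 2 → ∀ e : K.E i,
      (IsAmenable (MulAction.stabilizer G e) ∧ Infinite (G ⧸ MulAction.stabilizer G e)) ∨
        RatVanish X (MulAction.stabilizer G e) i)
    (h3 : ∀ i, 3 ≤ i → ∀ e : K.E i, RatVanish X (MulAction.stabilizer G e) i) :
    ∃ i ≤ 2, Nontrivial (X.homology (toRed G) i) := by
  by_contra hcon
  push Not at hcon
  have hs : ∀ i ≤ 2, Subsingleton (X.homology (toRed G) i) := fun i hi => hcon i hi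
  refine contra X K fun i => RV_of_orbits X i fun e => ?_
  rcases Nat.lt_or_ge i 3 with hi | hi
  · rcases Nat.eq_zero_or_pos i with rfl | hp
    · exact ratVanish_zero X _ (h0 e)
    · rcases h12 i (by omega) e with ⟨ha, hinf⟩ | h
      · intro z hz
        have h4 := Pool.Agent.H919R4.AS.coset X ha hinf hs i (by omega)
        refine ⟨1, one_ne_zero, ?_⟩
        rw [one_smul]
        have h5 := (QuotientAddGroup.subsingleton_iff).1 h4
        rw [AddSubgroup.addSubgroupOf_eq_top] at h5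
        exact h5 hz
      · exact h
  · exact h3 i hi e

end Pool.Agent.H82.ZC
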