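import Pool.Agent.H82.ZC.CovDefs
import Pool.Agent.H82.ZC.Main
import Pool.Agent.H82.ZC.Amen

set_option autoImplicit false

open scoped Matrix

namespace Pool.Agent.H82.ZC

open Pool.Agent.H919R4.ZS (FinRes toRed eps augm eps_d exists_lift eps_sub eps_smul eps_zsmul
  eps_single augm_single d_mul_d)
open Pool.Agent.H919R4.AS (permZ ringZ cobdZ cohomologyZ coboundariesZ)
open Pool.Agent.H496R3.ZS (IsAmenable)

variable {G : Type} [Group G] (X : FinRes G)

/-- an acyclic `PermComplex` as a `GComplex` -/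
def PermComplex.toG (S : PermComplex G) (hS : S.IsAcyclic) : GComplex G where
  E := S.E
  act := S.act
  bd := S.bd
  bd_smul := S.bd_smul
  nonempty := hS.1
  aug_bd := S.aug_bd
  bd_bd := S.bd_bd
  exact_zero := hS.2.1
  exact_succ := hS.2.2

lemma pbd_eqv (K : PermComplex G) (i : ℕ) : Eqv (G := G) (K.bd i) := fun g x => K.bd_smul i g x

/-- the chain map from the resolution to `K` -/
lemma up' {S K : PermComplex G} (hS : S.IsAcyclic) (F : EquivMap S K) (m : ℕ) :
    ∃ (N : ℤ) (c : ∀ i : ℕ, Fin (X.n i) → (K.E i →₀ ℤ)), N ≠ 0 ∧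
    (∀ j, sm _ (c 0 j) = N * X.aug j) ∧
    ∀ i < m, ∀ k, cobdZ X (K.E i) i (c i) k = K.bd i (c (i + 1) k) := by
  obtain ⟨N, c, hN, h0, hc⟩ : ∃ (N : ℤ) (c : ∀ i, Fin (X.n i) → (S.E i →₀ ℤ)), N ≠ 0 ∧
      (∀ j, sm (S.E 0) (c 0 j) = N * X.aug j) ∧
      ∀ i < m, ∀ k, cobdZ X (S.E i) i (c i) k = S.bd i (c (i + 1) k) := up X (S.toG hS) m
  refine ⟨F.deg * N, fun i j => F.f i (c i j), mul_ne_zero F.deg_ne_zero hN, ?_, ?_⟩
  · intro j
    have h1 := F.f_aug (c 0 j)
    have h2 : (Finsupp.sum (c 0 j) fun _ a => a) = N * X.aug j := h0 j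
    rw [h2] at h1
    change (Finsupp.sum (F.f 0 (c 0 j)) fun _ a => a) = _
    rw [h1, mul_assoc]
  · intro i hi k
    have h1 := congrFun (cobdZ_nat X (φ := F.f i) (fun g x => F.f_smul i g x) i (c i)) k
    refine h1.trans ?_
    rw [hc i hi k]
    exact F.f_bd i (c (i + 1) k)

/-- the homotopy -/
lemma down' (K : PermComplex G) (hK : ∀ i, RV X (K.E i) i)
    (c : ∀ i : ℕ, Fin (X.n i) → (K.E i →₀ ℤ)) (m : ℕ)
    (hc : ∀ i < m, ∀ k, cobdZ X (K.E i) i (c i) k = K.bd i (c (i + 1) k)) (i : ℕ) (hi : i ≤ m)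
    (hm : ∃ (M : ℤ) (b : Fin (X.n m) → (K.E (m + 1) →₀ ℤ)), M ≠ 0 ∧
      cobdZ X (K.E m) m (M • c m - fun j => K.bd m (b j)) = 0) :
    ∃ (M : ℤ) (b : Fin (X.n i) → (K.E (i + 1) →₀ ℤ)), M ≠ 0 ∧
      cobdZ X (K.E i) i (M • c i - fun j => K.bd i (b j)) = 0 := by
  obtain ⟨s, rfl⟩ := Nat.exists_eq_add_of_le hi
  clear hi
  induction s generalizing i with
  | zero => exact hm
  | succ s ih =>
    have h1 := ih (i + 1) (fun j hj k => hc j (by omega) k) (by
      have e : i + (s + 1) = i + 1 + s := by omega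
      rw [e] at hm
      exact hm)
    obtain ⟨M, b, hM, hb⟩ := h1
    obtain ⟨N, hN, b', hb'⟩ := hK (i + 1) _ hb
    refine ⟨N * M, b', mul_ne_zero hN hM, ?_⟩
    have e1 := cobdZ_nat X (pbd_eqv K i) i b'
    rw [map_sub, e1, map_zsmul]
    funext k
    rw [Pi.sub_apply, Pi.smul_apply, hc i (by omega) k, hb', ← map_zsmul, ← map_sub]
    have e2 : (N * M) • c (i + 1) k - (N • (M • c (i + 1) - fun j => K.bd (i + 1) (b j))) k =
        K.bd (i + 1) (N • b k) := by
      rw [Pi.smul_apply, Pi.sub_apply, Pi.smul_apply, smul_sub, mul_smul, map_zsmul]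
      abel
    rw [e2, K.bd_bd]
    rfl

theorem contra' {S K : PermComplex G} (hS : S.IsAcyclic) (F : EquivMap S K)
    (hK : ∀ i, RV X (K.E i) i) : False := by
  obtain ⟨N, c, hN, h0, hc⟩ := up' X hS F (X.len + 1)
  have hn : X.n (X.len + 1) = 0 := X.n_eq_zero _ (by omega)
  obtain ⟨M, b, hM, hb⟩ := down' X K hK c (X.len + 1) hc 0 (by omega) ⟨1, 0, one_ne_zero, by
    have : (1 : ℤ) • c (X.len + 1) - (fun j => K.bd (X.len + 1) ((0 : Fin (X.n (X.len + 1)) → _) j))
        = 0 := by
      funext j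
      exact absurd j.2 (by omega)
    rw [this, map_zero]⟩
  obtain ⟨N', hN', hz⟩ := hK 0 _ hb
  have hz' : N' • (M • c 0 - fun j => K.bd 0 (b j)) = 0 := hz
  have h2 : ∀ j, N' * (M * (N * X.aug j)) = 0 := by
    intro j
    have h3 := congrArg (sm (K.E 0)) (congrFun hz' j)
    rw [Pi.smul_apply, Pi.sub_apply, Pi.smul_apply, map_zsmul, map_sub, map_zsmul, h0] at h3
    have h4 : sm (K.E 0) (K.bd 0 (b j)) = 0 := K.aug_bd (b j)
    rw [h4] at h3
    simpa using h3
  obtain ⟨x0, hx0⟩ := X.surj
  have h5 : ∀ j, X.aug j = 0 := by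
    intro j
    have := h2 j
    simpa [hN', hM, hN] using this
  rw [Finset.sum_eq_zero (fun j _ => by rw [h5 j, mul_zero])] at hx0
  exact zero_ne_one hx0

/-- **Equivariant maps to complexes.** -/
theorem main_map {S K : PermComplex G} (hS : S.IsAcyclic) (F : EquivMap S K)
    (h0 : ∀ v : K.E 0, Infinite (G ⧸ MulAction.stabilizer G v))
    (h12 : ∀ i, i = 1 ∨ i = 2 → ∀ e : K.E i,
      (IsAmenable (MulAction.stabilizer G e) ∧ Infinite (G ⧸ MulAction.stabilizer G e)) ∨
        RatVanish X (MulAction.stabilizer G e) i)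
    (h3 : ∀ i, 3 ≤ i → ∀ e : K.E i, RatVanish X (MulAction.stabilizer G e) i) :
    ∃ i ≤ 2, Nontrivial (X.homology (toRed G) i) := by
  by_contra hcon
  push Not at hcon
  have hs : ∀ i ≤ 2, Subsingleton (X.homology (toRed G) i) := fun i hi => hcon i hi
  refine contra' X hS F fun i => RV_of_orbits X i fun e => ?_
  rcases Nat.lt_or_ge i 3 with hi | hi
  · rcases Nat.eq_zero_or_pos i with rfl | hp
    · exact ratVanish_zero X _ (h0 e)
    · rcases h12 i (by omega) e with ⟨ha, hinf⟩ | h
      · intro z hz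
        have h4 := Pool.Agent.H919R4.AS.coset X ha hinf hs i (by omega)
        refine ⟨1, one_ne_zero, ?_⟩
        rw [one_smul]
        have h5 := (QuotientAddGroup.subsingleton_iff).1 h4
        rw [AddSubgroup.addSubgroupOf_eq_top] at h5
        exact h5 hz
      · exact h
  · exact h3 i hi e

/-! ### Chains of lists -/

section lists

variable {P : Type}

/-- prepending `q` -/
noncomputable def pre (q : P) : (List P →₀ ℤ) →ₗ[ℤ] (List P →₀ ℤ) :=
  Finsupp.lmapDomain ℤ ℤ (List.cons q)

lemma pre_single (q : P) (l : List P) (a : ℤ) :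
    pre q (Finsupp.single l a) = Finsupp.single (q :: l) a := by
  unfold pre
  rw [Finsupp.lmapDomain_apply, Finsupp.mapDomain_single]

/-- the boundary of a list -/
noncomputable def dl : List P → (List P →₀ ℤ)
  | [] => 0
  | q :: l => Finsupp.single l 1 - pre q (dl l)

/-- the boundary operator -/
noncomputable def D : (List P →₀ ℤ) →ₗ[ℤ] (List P →₀ ℤ) := Finsupp.linearCombination ℤ dl

lemma D_single (l : List P) : D (Finsupp.single l (1 : ℤ)) = dl l := by
  unfold D
  rw [Finsupp.linearCombination_single, one_smul]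

lemma D_pre (q : P) (x : List P →₀ ℤ) : D (pre q x) = x - pre q (D x) := by
  have h : D ∘ₗ pre q = LinearMap.id - pre q ∘ₗ D := by
    apply Finsupp.lhom_ext'
    intro l
    apply LinearMap.ext_ring
    change D (pre q (Finsupp.single l 1)) = Finsupp.single l 1 - pre q (D (Finsupp.single l 1))
    rw [pre_single, D_single, D_single]
    rfl
  exact LinearMap.congr_fun h x

lemma D_dl (l : List P) : D (dl l) = 0 := by
  induction l with
  | nil => exact map_zero _
  | cons q l ih =>
    change D (Finsupp.single l 1 - pre q (dl l)) = 0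
    rw [map_sub, D_single, D_pre, ih, map_zero, sub_zero, sub_self]

lemma D_D (x : List P →₀ ℤ) : D (D x) = 0 := by
  have h : (D : (List P →₀ ℤ) →ₗ[ℤ] _) ∘ₗ D = 0 := by
    apply Finsupp.lhom_ext'
    intro l
    apply LinearMap.ext_ring
    change D (D (Finsupp.single l 1)) = 0
    rw [D_single, D_dl]
  exact LinearMap.congr_fun h x

lemma dl_support (l : List P) : ∀ l' ∈ (dl l).support, List.Sublist l' l ∧ l'.length + 1 = l.length := by
  classical
  induction l with
  | nil => intro l' hl'; simp [dl] at hl'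
  | cons q l ih =>
    intro l' hl'
    have h1 : (dl (q :: l)).support ⊆ {l} ∪ (dl l).support.image (List.cons q) := by
      change (Finsupp.single l 1 - pre q (dl l)).support ⊆ _
      refine Finsupp.support_sub.trans (Finset.union_subset_union Finsupp.support_single_subset ?_)
      unfold pre
      rw [Finsupp.lmapDomain_apply]
      exact Finsupp.mapDomain_support
    rcases Finset.mem_union.1 (h1 hl') with h2 | h2
    · rw [Finset.mem_singleton] at h2
      subst h2
      exact ⟨List.sublist_cons_self q l', by simp⟩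
    · obtain ⟨l'', h3, rfl⟩ := Finset.mem_image.1 h2
      obtain ⟨h4, h5⟩ := ih l'' h3
      exact ⟨h4.cons_cons q, by simp [h5]⟩

lemma D_support (x : List P →₀ ℤ) : ∀ l' ∈ (D x).support, ∃ l ∈ x.support,
    List.Sublist l' l ∧ l'.length + 1 = l.length := by
  classical
  intro l' hl'
  have h1 : D x = ∑ l ∈ x.support, x l • dl l := by
    unfold D
    rw [Finsupp.linearCombination_apply]; rfl
  rw [h1, Finsupp.mem_support_iff, Finsupp.finsetSum_apply] at hl'
  obtain ⟨l, hl, h2⟩ := Finset.exists_ne_zero_of_sum_ne_zero hl'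
  refine ⟨l, hl, dl_support l l' (Finsupp.mem_support_iff.2 fun h3 => h2 ?_)⟩
  rw [Finsupp.smul_apply, h3, smul_zero]

/-- the translate of a chain of lists -/
lemma D_map {Q : Type} (u : P → Q) (x : List P →₀ ℤ) :
    D (x.mapDomain (List.map u)) = (D x).mapDomain (List.map u) := by
  have key : ∀ l : List P, dl (l.map u) = (dl l).mapDomain (List.map u) := by
    intro l
    induction l with
    | nil => simp [dl]
    | cons q l ih =>
      change Finsupp.single (l.map u) 1 - pre (u q) (dl (l.map u)) =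
        Finsupp.mapDomain (List.map u) (Finsupp.single l 1 - pre q (dl l))
      rw [Finsupp.mapDomain_sub, Finsupp.mapDomain_single, ih]
      congr 1
      unfold pre
      rw [Finsupp.lmapDomain_apply, Finsupp.lmapDomain_apply, ← Finsupp.mapDomain_comp,
        ← Finsupp.mapDomain_comp]
      rfl
  have h : (D : (List Q →₀ ℤ) →ₗ[ℤ] _) ∘ₗ Finsupp.lmapDomain ℤ ℤ (List.map u) =
      Finsupp.lmapDomain ℤ ℤ (List.map u) ∘ₗ D := by
    apply Finsupp.lhom_ext'
    intro l
    apply LinearMap.ext_ring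
    change D ((Finsupp.single l 1).mapDomain (List.map u)) =
      (D (Finsupp.single l 1)).mapDomain (List.map u)
    rw [Finsupp.mapDomain_single, D_single, D_single, key]
  exact LinearMap.congr_fun h x

end lists

/-! ### The order complex -/

section order

variable (P : Type) [PartialOrder P]

/-- the decreasing lists with `n` elements -/
abbrev Ch (n : ℕ) : Type := {l : List P // l.length = n ∧ l.Pairwise (fun a b => b < a)}

/-- the action of `G` on the decreasing lists -/
@[reducible] def chAct [MulAction G P] (hlt : ∀ (g : G) (p q : P), p < q → g • p < g • q) (n : ℕ) :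
    MulAction G (Ch P n) where
  smul g l := ⟨l.1.map (fun p => g • p), by
    refine ⟨by rw [List.length_map]; exact l.2.1, ?_⟩
    exact l.2.2.map _ fun a b h => hlt g b a h⟩
  one_smul l := by
    apply Subtype.ext
    change l.1.map (fun p => (1 : G) • p) = l.1
    simp
  mul_smul g h l := by
    apply Subtype.ext
    change l.1.map (fun p => (g * h) • p) = (l.1.map (fun p => h • p)).map (fun p => g • p)
    rw [List.map_map]
    congr 1
    funext p
    exact mul_smul g h p

variable {P}

/-- the chains as chains of lists -/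
noncomputable def toL (n : ℕ) : (Ch P n →₀ ℤ) →ₗ[ℤ] (List P →₀ ℤ) :=
  Finsupp.lmapDomain ℤ ℤ Subtype.val

lemma toL_single (n : ℕ) (l : Ch P n) (a : ℤ) :
    toL n (Finsupp.single l a) = Finsupp.single l.1 a := by
  unfold toL
  rw [Finsupp.lmapDomain_apply, Finsupp.mapDomain_single]

lemma toL_injective (n : ℕ) : Function.Injective (toL (P := P) n) :=
  Finsupp.mapDomain_injective Subtype.val_injective

/-- the restriction to the decreasing lists -/
noncomputable def ofL (n : ℕ) : (List P →₀ ℤ) →+ (Ch P n →₀ ℤ) :=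
  Finsupp.comapDomain.addMonoidHom (f := (Subtype.val : Ch P n → List P)) Subtype.val_injective

lemma toL_ofL (n : ℕ) (x : List P →₀ ℤ)
    (hx : ∀ l ∈ x.support, l.length = n ∧ l.Pairwise (fun a b => b < a)) :
    toL n (ofL n x) = x := by
  change Finsupp.mapDomain Subtype.val (Finsupp.comapDomain Subtype.val x _) = x
  refine Finsupp.mapDomain_comapDomain _ Subtype.val_injective _ ?_
  intro l hl
  exact ⟨⟨l, hx l hl⟩, rfl⟩

lemma toL_support (n : ℕ) (x : Ch P n →₀ ℤ) : ∀ l ∈ (toL n x).support,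
    l.length = n ∧ l.Pairwise (fun a b => b < a) := by
  classical
  intro l hl
  have h := Finsupp.mapDomain_support (f := (Subtype.val : Ch P n → List P)) (s := x) hl
  obtain ⟨a, -, rfl⟩ := Finset.mem_image.1 h
  exact a.2

/-- the boundary operators of the order complex -/
noncomputable def chBd (n : ℕ) : (Ch P (n + 1) →₀ ℤ) →+ (Ch P n →₀ ℤ) :=
  (ofL n).comp ((D (P := P)).toAddMonoidHom.comp (toL (n + 1)).toAddMonoidHom)

lemma toL_chBd (n : ℕ) (x : Ch P (n + 1) →₀ ℤ) : toL n (chBd n x) = D (toL (n + 1) x) := by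
  change toL n (ofL n (D (toL (n + 1) x))) = _
  refine toL_ofL n _ ?_
  intro l' hl'
  obtain ⟨l, hl, h1, h2⟩ := D_support _ l' hl'
  obtain ⟨h3, h4⟩ := toL_support _ _ l hl
  exact ⟨by omega, h4.sublist h1⟩

lemma sm_eq {Z : Type} (x : Z →₀ ℤ) : sm Z x = x.sum fun _ a => a := rfl

lemma D_toL_one (x : Ch P 1 →₀ ℤ) : D (toL 1 x) = Finsupp.single [] (sm _ x) := by
  have h : (D : (List P →₀ ℤ) →ₗ[ℤ] _) ∘ₗ toL 1 =
      (Finsupp.lsingle [] : ℤ →ₗ[ℤ] (List P →₀ ℤ)) ∘ₗ (sm (Ch P 1)).toIntLinearMap := by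
    apply Finsupp.lhom_ext'
    intro l
    apply LinearMap.ext_ring
    change D (toL 1 (Finsupp.single l 1)) = Finsupp.single [] (sm _ (Finsupp.single l 1))
    rw [toL_single, D_single]
    obtain ⟨l, h1, h2⟩ := l
    obtain ⟨a, rfl⟩ := List.length_eq_one_iff.1 h1
    change Finsupp.single [] 1 - pre a (dl []) = _
    have : sm (Ch P 1) (Finsupp.single (⟨[a], h1, h2⟩ : Ch P 1) 1) = 1 := by
      rw [sm_eq]; simp
    rw [this]
    change Finsupp.single [] 1 - pre a 0 = _
    rw [map_zero, sub_zero]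
  exact LinearMap.congr_fun h x

variable (P) in
/-- the order complex -/
noncomputable def orderComplex [MulAction G P]
    (hlt : ∀ (g : G) (p q : P), p < q → g • p < g • q) : PermComplex G where
  E i := Ch P (i + 1)
  act i := chAct P hlt (i + 1)
  bd i := chBd (i + 1)
  bd_smul i g x := by
    letI := fun n => chAct (G := G) P hlt n
    apply toL_injective
    rw [toL_chBd]
    have e : ∀ (n : ℕ) (y : Ch P n →₀ ℤ), toL n (y.mapDomain fun e => g • e) =
        (toL n y).mapDomain (List.map fun p => g • p) := by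
      intro n y
      unfold toL
      rw [Finsupp.lmapDomain_apply, Finsupp.lmapDomain_apply, ← Finsupp.mapDomain_comp,
        ← Finsupp.mapDomain_comp]
      rfl
    rw [e, e, D_map, toL_chBd]
  aug_bd x := by
    have h := D_toL_one (chBd 1 x)
    rw [toL_chBd, D_D] at h
    have h2 := congrArg (fun y : List P →₀ ℤ => y []) h
    simp only [Finsupp.single_eq_same] at h2
    exact h2.symm
  bd_bd i x := by
    apply toL_injective
    rw [toL_chBd, toL_chBd, D_D, map_zero]

end order

end Pool.Agent.H82.ZC
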