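import Pool.Agent.H82.ZC.Defs

/-!
Chain complexes of permutation modules, equivariant chain maps.
-/

set_option autoImplicit false

namespace Pool.Agent.H82.ZC

/-- A chain complex of permutation modules with an augmentation: the cellular chain complex (with
integer coefficients) of a `G`-complex whose oriented cells are permuted by `G`, for instance of a
simplicial complex with a `G`-invariant local ordering of the vertices, such as the barycentric
subdivision of a simplicial complex with a simplicial action of `G`. There may be infinitely many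
orbits of cells, infinitely many dimensions, and no exactness is assumed. -/
structure PermComplex (G : Type) [Group G] where
  /-- the `i`-cells -/
  E : ℕ → Type
  /-- the action on the `i`-cells -/
  act : ∀ i, MulAction G (E i)
  /-- the boundary operators -/
  bd : ∀ i, (E (i + 1) →₀ ℤ) →+ (E i →₀ ℤ)
  /-- the boundary operators commute with the action -/
  bd_smul : ∀ (i : ℕ) (g : G) (x : E (i + 1) →₀ ℤ),
    bd i (x.mapDomain (fun e => g • e)) = (bd i x).mapDomain (fun e => g • e)
  /-- the augmentation of a boundary is zero -/
  aug_bd : ∀ x : E 1 →₀ ℤ, (bd 0 x).sum (fun _ a => a) = 0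
  /-- the composition of two boundary operators is zero -/
  bd_bd : ∀ (i : ℕ) (x : E (i + 2) →₀ ℤ), bd i (bd (i + 1) x) = 0

attribute [instance] PermComplex.act

/-- The complex is rationally acyclic: it is not empty and has the rational homology of a point. -/
def PermComplex.IsAcyclic {G : Type} [Group G] (S : PermComplex G) : Prop :=
  Nonempty (S.E 0) ∧
  (∀ x : S.E 0 →₀ ℤ, x.sum (fun _ a => a) = 0 → ∃ N : ℤ, N ≠ 0 ∧ ∃ y, S.bd 0 y = N • x) ∧
  ∀ (i : ℕ) (x : S.E (i + 1) →₀ ℤ), S.bd i x = 0 → ∃ N : ℤ, N ≠ 0 ∧ ∃ y, S.bd (i + 1) y = N • x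

/-- An equivariant chain map `S → K` which multiplies the augmentation by an integer `deg ≠ 0`
(`deg = 1` for the chain map of a cellular `G`-map). -/
structure EquivMap {G : Type} [Group G] (S K : PermComplex G) where
  /-- the maps of the chain groups -/
  f : ∀ i, (S.E i →₀ ℤ) →+ (K.E i →₀ ℤ)
  /-- they are equivariant -/
  f_smul : ∀ (i : ℕ) (g : G) (x : S.E i →₀ ℤ),
    f i (x.mapDomain (fun e => g • e)) = (f i x).mapDomain (fun e => g • e)
  /-- they commute with the boundary operators -/
  f_bd : ∀ (i : ℕ) (x : S.E (i + 1) →₀ ℤ), f i (S.bd i x) = K.bd i (f (i + 1) x)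
  /-- the degree -/
  deg : ℤ
  /-- the degree is not zero -/
  deg_ne_zero : deg ≠ 0
  /-- the augmentation is multiplied by the degree -/
  f_aug : ∀ x : S.E 0 →₀ ℤ, (f 0 x).sum (fun _ a => a) = deg * x.sum (fun _ a => a)

end Pool.Agent.H82.ZC
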