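import Pool.Agent.H82.G.R_seed8.H919R4.AS.Defs

/-!
Cellular actions of a group on rationally acyclic complexes.
-/

set_option autoImplicit false

namespace Pool.Agent.H82.ZC

open Pool.Agent.H919R4.ZS (FinRes toRed)
open Pool.Agent.H919R4.AS (permZ ringZ cobdZ cohomologyZ coboundariesZ)

/-- The augmented cellular chain complex of a nonempty, rationally acyclic `G`-complex `K` (of
any dimension, with any number of orbits of cells) whose oriented cells are permuted by `G`, for
instance a simplicial complex with a `G`-invariant local ordering of the vertices, such as the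
barycentric subdivision of a simplicial complex with a simplicial action of `G`.
`E i` is the set of `i`-cells and `bd i` is the boundary operator from the `(i+1)`-chains to the
`i`-chains with integer coefficients. -/
structure GComplex (G : Type) [Group G] where
  /-- the `i`-cells -/
  E : ℕ → Type
  /-- the action on the `i`-cells -/
  act : ∀ i, MulAction G (E i)
  /-- the boundary operators -/
  bd : ∀ i, (E (i + 1) →₀ ℤ) →+ (E i →₀ ℤ)
  /-- the boundary operators commute with the action -/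
  bd_smul : ∀ (i : ℕ) (g : G) (x : E (i + 1) →₀ ℤ),
    bd i (x.mapDomain (fun e => g • e)) = (bd i x).mapDomain (fun e => g • e)
  /-- `K` is not empty -/
  nonempty : Nonempty (E 0)
  /-- the augmentation of a boundary is zero -/
  aug_bd : ∀ x : E 1 →₀ ℤ, (bd 0 x).sum (fun _ a => a) = 0
  /-- the composition of two boundary operators is zero -/
  bd_bd : ∀ (i : ℕ) (x : E (i + 2) →₀ ℤ), bd i (bd (i + 1) x) = 0
  /-- `H_0(K; ℚ) = ℚ` -/
  exact_zero : ∀ x : E 0 →₀ ℤ, x.sum (fun _ a => a) = 0 → ∃ N : ℤ, N ≠ 0 ∧ ∃ y, bd 0 y = N • x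
  /-- `H_i(K; ℚ) = 0` for `i ≥ 1` -/
  exact_succ : ∀ (i : ℕ) (x : E (i + 1) →₀ ℤ), bd i x = 0 → ∃ N : ℤ, N ≠ 0 ∧ ∃ y, bd (i + 1) y = N • x

attribute [instance] GComplex.act

/-- `H^i(G; ℚ[G/C]) = 0`: for each `i`-cocycle `z` of `Hom_{ℤ[G]}(C_*, ℤ[G/C])` some nonzero
multiple of `z` is a coboundary. -/
def RatVanish {G : Type} [Group G] (X : FinRes G) (C : Subgroup G) (i : ℕ) : Prop :=
  ∀ z : Fin (X.n i) → (G ⧸ C →₀ ℤ), cobdZ X (G ⧸ C) i z = 0 →
    ∃ N : ℤ, N ≠ 0 ∧ N • z ∈ coboundariesZ X (G ⧸ C) i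

end Pool.Agent.H82.ZC
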