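import Pool.Agent.H82.ZC.Cov

set_option autoImplicit false

namespace Pool.Agent.H82.ZC

open Pool.Agent.H919R4.ZS (FinRes toRed)
open Pool.Agent.H496R3.ZS (IsAmenable)

section cone

variable {P : Type} [PartialOrder P]

open Classical in
/-- the cone with apex `q` -/
noncomputable def cone (q : P) : (List P →₀ ℤ) →ₗ[ℤ] (List P →₀ ℤ) :=
  Finsupp.linearCombination ℤ (fun l => if ∀ p ∈ l, p < q then Finsupp.single (q :: l) 1 else 0)

lemma cone_single_of (q : P) (l : List P) (h : ∀ p ∈ l, p < q) :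
    cone q (Finsupp.single l 1) = Finsupp.single (q :: l) (1 : ℤ) := by
  unfold cone
  rw [Finsupp.linearCombination_single, one_smul, if_pos h]

lemma cone_single_not (q : P) (l : List P) (h : ¬ ∀ p ∈ l, p < q) :
    cone q (Finsupp.single l (1 : ℤ)) = 0 := by
  unfold cone
  rw [Finsupp.linearCombination_single, one_smul, if_neg h]

/-- two linear maps which agree on the lists in the support agree -/
lemma eq_of_support {A : Type*} [AddCommGroup A] {Z : Type} (f g : (Z →₀ ℤ) →ₗ[ℤ] A)
    (x : Z →₀ ℤ) (h : ∀ l ∈ x.support, f (Finsupp.single l 1) = g (Finsupp.single l 1)) :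
    f x = g x := by
  have e : x = ∑ l ∈ x.support, x l • Finsupp.single l (1 : ℤ) := by
    conv_lhs => rw [← Finsupp.sum_single x]
    refine Finset.sum_congr rfl fun l _ => ?_
    rw [Finsupp.smul_single, smul_eq_mul, mul_one]
  rw [e, map_sum, map_sum]
  refine Finset.sum_congr rfl fun l hl => ?_
  rw [map_smul, map_smul, h l hl]

lemma cone_eq_pre (q : P) (x : List P →₀ ℤ) (h : ∀ l ∈ x.support, ∀ p ∈ l, p < q) :
    cone q x = pre q x := by
  refine eq_of_support _ _ x fun l hl => ?_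
  rw [cone_single_of q l (h l hl), pre_single]

lemma cone_pre (q : P) (x : List P →₀ ℤ) : cone q (pre q x) = 0 := by
  have : cone q (pre q x) = (0 : (List P →₀ ℤ) →ₗ[ℤ] (List P →₀ ℤ)) x := by
    refine eq_of_support (cone q ∘ₗ pre q) 0 x fun l _ => ?_
    change cone q (pre q (Finsupp.single l 1)) = 0
    rw [pre_single]
    refine cone_single_not q _ fun h => ?_
    exact lt_irrefl q (h q List.mem_cons_self)
  exact this

/-- the boundary of the cone -/
lemma D_cone (q : P) (x : List P →₀ ℤ)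
    (h : ∀ l ∈ x.support, l.Pairwise (fun a b => b < a) ∧ ∀ p ∈ l, p ≤ q) :
    D (cone q x) = x - cone q (D x) := by
  classical
  refine eq_of_support (D ∘ₗ cone q) (LinearMap.id - cone q ∘ₗ D) x fun l hl => ?_
  obtain ⟨h1, h2⟩ := h l hl
  change D (cone q (Finsupp.single l 1)) = Finsupp.single l 1 - cone q (D (Finsupp.single l 1))
  rw [D_single]
  cases l with
  | nil =>
    rw [cone_single_of q [] (by simp), D_single]
    change Finsupp.single [] 1 - pre q 0 = Finsupp.single [] 1 - cone q 0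
    rw [map_zero, map_zero]
  | cons a l =>
    rw [List.pairwise_cons] at h1
    rcases lt_or_eq_of_le (h2 a List.mem_cons_self) with h3 | h3
    · have h4 : ∀ p ∈ a :: l, p < q := by
        intro p hp
        rcases List.mem_cons.1 hp with rfl | hp
        · exact h3
        · exact (h1.1 p hp).trans h3
      rw [cone_single_of q _ h4, D_single]
      change Finsupp.single (a :: l) 1 - pre q (dl (a :: l)) = _
      rw [cone_eq_pre q (dl (a :: l))]
      intro l' hl' p hp
      exact h4 p ((dl_support _ l' hl').1.subset hp)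
    · subst h3
      rw [cone_single_not a _ fun h => lt_irrefl a (h a List.mem_cons_self), map_zero]
      change 0 = Finsupp.single (a :: l) 1 - cone a (Finsupp.single l 1 - pre a (dl l))
      rw [map_sub, cone_pre, sub_zero, cone_single_of a l h1.1, sub_self]

lemma cone_support (q : P) (x : List P →₀ ℤ) : ∀ l ∈ (cone q x).support,
    ∃ l' ∈ x.support, l = q :: l' ∧ ∀ p ∈ l', p < q := by
  classical
  intro l hl
  have h1 : cone q x = ∑ l' ∈ x.support, x l' •
      (if ∀ p ∈ l', p < q then Finsupp.single (q :: l') (1 : ℤ) else 0) := by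
    unfold cone
    rw [Finsupp.linearCombination_apply]; rfl
  rw [h1, Finsupp.mem_support_iff, Finsupp.finsetSum_apply] at hl
  obtain ⟨l', hl', h2⟩ := Finset.exists_ne_zero_of_sum_ne_zero hl
  refine ⟨l', hl', ?_⟩
  split_ifs at h2 with h3
  · refine ⟨?_, h3⟩
    rw [Finsupp.smul_apply, Finsupp.single_apply] at h2
    split_ifs at h2 with h4
    · exact h4.symm
    · simp at h2
  · simp at h2

lemma cone_map (u : P → P) (hu : ∀ p q, u p < u q ↔ p < q) (q : P) (x : List P →₀ ℤ) :
    cone (u q) (x.mapDomain (List.map u)) = (cone q x).mapDomain (List.map u) := by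
  classical
  refine eq_of_support (cone (u q) ∘ₗ Finsupp.lmapDomain ℤ ℤ (List.map u))
    (Finsupp.lmapDomain ℤ ℤ (List.map u) ∘ₗ cone q) x fun l _ => ?_
  change cone (u q) ((Finsupp.single l 1).mapDomain (List.map u)) =
    (cone q (Finsupp.single l 1)).mapDomain (List.map u)
  rw [Finsupp.mapDomain_single]
  by_cases h : ∀ p ∈ l, p < q
  · rw [cone_single_of q l h, cone_single_of, Finsupp.mapDomain_single]
    · rfl
    · intro p hp
      obtain ⟨p', hp', rfl⟩ := List.mem_map.1 hp
      exact (hu _ _).2 (h p' hp')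
  · rw [cone_single_not q l h, cone_single_not, Finsupp.mapDomain_zero]
    intro h2
    exact h fun p hp => (hu _ _).1 (h2 (u p) (List.mem_map_of_mem hp))

end cone

section label

variable {G : Type} [Group G] (S : PermComplex G) {P : Type} [PartialOrder P]
  (φ : ∀ i, S.E i → P)

/-- the chain map to the chains of lists -/
noncomputable def Fl : ∀ i, (S.E i →₀ ℤ) →ₗ[ℤ] (List P →₀ ℤ)
  | 0 => Finsupp.linearCombination ℤ (fun v => Finsupp.single [φ 0 v] 1)
  | i + 1 => Finsupp.linearCombination ℤ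
      (fun e => cone (φ (i + 1) e) (Fl i (S.bd i (Finsupp.single e 1))))

lemma Fl_zero (v : S.E 0) : Fl S φ 0 (Finsupp.single v 1) = Finsupp.single [φ 0 v] 1 := by
  unfold Fl
  rw [Finsupp.linearCombination_single, one_smul]

lemma Fl_succ (i : ℕ) (e : S.E (i + 1)) : Fl S φ (i + 1) (Finsupp.single e 1) =
    cone (φ (i + 1) e) (Fl S φ i (S.bd i (Finsupp.single e 1))) := by
  change Finsupp.linearCombination ℤ
      (fun e => cone (φ (i + 1) e) (Fl S φ i (S.bd i (Finsupp.single e 1)))) _ = _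
  rw [Finsupp.linearCombination_single, one_smul]

variable (hmono : ∀ (i : ℕ) (e : S.E (i + 1)) (e' : S.E i),
    S.bd i (Finsupp.single e 1) e' ≠ 0 → φ i e' ≤ φ (i + 1) e)

/-- the support of the image of a chain -/
lemma Fl_support_sum (i : ℕ) (x : S.E i →₀ ℤ) : ∀ l ∈ (Fl S φ i x).support,
    ∃ e ∈ x.support, l ∈ (Fl S φ i (Finsupp.single e 1)).support := by
  classical
  intro l hl
  have e1 : x = ∑ e ∈ x.support, x e • Finsupp.single e (1 : ℤ) := by
    conv_lhs => rw [← Finsupp.sum_single x]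
    refine Finset.sum_congr rfl fun l _ => ?_
    rw [Finsupp.smul_single, smul_eq_mul, mul_one]
  rw [e1, map_sum, Finsupp.mem_support_iff, Finsupp.finsetSum_apply] at hl
  obtain ⟨e, he, h2⟩ := Finset.exists_ne_zero_of_sum_ne_zero hl
  refine ⟨e, he, Finsupp.mem_support_iff.2 fun h3 => h2 ?_⟩
  rw [map_smul, Finsupp.smul_apply, h3, smul_zero]

include hmono in
lemma Fl_support (i : ℕ) (e : S.E i) : ∀ l ∈ (Fl S φ i (Finsupp.single e 1)).support,
    l.length = i + 1 ∧ l.Pairwise (fun a b => b < a) ∧ ∀ p ∈ l, p ≤ φ i e := by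
  classical
  induction i with
  | zero =>
    intro l hl
    rw [Fl_zero] at hl
    have := Finsupp.support_single_subset hl
    rw [Finset.mem_singleton] at this
    subst this
    refine ⟨rfl, List.pairwise_singleton _ _, ?_⟩
    intro p hp
    rw [List.mem_singleton] at hp
    exact hp.le
  | succ i ih =>
    intro l hl
    rw [Fl_succ] at hl
    obtain ⟨l', hl', rfl, h2⟩ := cone_support _ _ l hl
    obtain ⟨e', he', h3⟩ := Fl_support_sum S φ i _ l' hl'
    obtain ⟨h4, h5, h6⟩ := ih e' l' h3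
    refine ⟨by simp [h4], List.pairwise_cons.2 ⟨h2, h5⟩, ?_⟩
    intro p hp
    rcases List.mem_cons.1 hp with rfl | hp
    · exact le_rfl
    · exact (h2 p hp).le

lemma D_Fl_zero (x : S.E 0 →₀ ℤ) : D (Fl S φ 0 x) = Finsupp.single [] (sm _ x) := by
  refine eq_of_support (D ∘ₗ Fl S φ 0)
    ((Finsupp.lsingle [] : ℤ →ₗ[ℤ] (List P →₀ ℤ)) ∘ₗ (sm (S.E 0)).toIntLinearMap) x fun v _ => ?_
  change D (Fl S φ 0 (Finsupp.single v 1)) = Finsupp.single [] (sm _ (Finsupp.single v 1))
  rw [Fl_zero, D_single]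
  have : sm (S.E 0) (Finsupp.single v 1) = 1 := by rw [sm_eq]; simp
  rw [this]
  change Finsupp.single [] 1 - pre (φ 0 v) 0 = _
  rw [map_zero, sub_zero]

include hmono in
lemma D_Fl_succ (i : ℕ) (x : S.E (i + 1) →₀ ℤ) :
    D (Fl S φ (i + 1) x) = Fl S φ i (S.bd i x) := by
  induction i with
  | zero =>
    refine eq_of_support (D ∘ₗ Fl S φ 1) (Fl S φ 0 ∘ₗ (S.bd 0).toIntLinearMap) x fun e _ => ?_
    change D (Fl S φ 1 (Finsupp.single e 1)) = Fl S φ 0 (S.bd 0 (Finsupp.single e 1))
    rw [Fl_succ, D_cone, D_Fl_zero, sm_eq, S.aug_bd, Finsupp.single_zero, map_zero, sub_zero]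
    intro l hl
    obtain ⟨e', he', h3⟩ := Fl_support_sum S φ 0 _ l hl
    obtain ⟨h4, h5, h6⟩ := Fl_support S φ hmono 0 e' l h3
    exact ⟨h5, fun p hp => (h6 p hp).trans (hmono 0 e e' (Finsupp.mem_support_iff.1 he'))⟩
  | succ i ih =>
    refine eq_of_support (D ∘ₗ Fl S φ (i + 2)) (Fl S φ (i + 1) ∘ₗ (S.bd (i + 1)).toIntLinearMap) x
      fun e _ => ?_
    change D (Fl S φ (i + 2) (Finsupp.single e 1)) =
      Fl S φ (i + 1) (S.bd (i + 1) (Finsupp.single e 1))
    rw [Fl_succ, D_cone, ih, S.bd_bd, map_zero, map_zero, sub_zero]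
    intro l hl
    obtain ⟨e', he', h3⟩ := Fl_support_sum S φ (i + 1) _ l hl
    obtain ⟨h4, h5, h6⟩ := Fl_support S φ hmono (i + 1) e' l h3
    exact ⟨h5, fun p hp => (h6 p hp).trans (hmono (i + 1) e e' (Finsupp.mem_support_iff.1 he'))⟩

variable [MulAction G P] (hlt : ∀ (g : G) (p q : P), p < q → g • p < g • q)
  (hφ : ∀ (i : ℕ) (g : G) (e : S.E i), φ i (g • e) = g • φ i e)

include hlt hφ in
lemma Fl_smul (i : ℕ) (g : G) (x : S.E i →₀ ℤ) :
    Fl S φ i (x.mapDomain fun e => g • e) = (Fl S φ i x).mapDomain (List.map fun p => g • p) := by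
  induction i with
  | zero =>
    refine eq_of_support (Fl S φ 0 ∘ₗ Finsupp.lmapDomain ℤ ℤ (fun e => g • e))
      (Finsupp.lmapDomain ℤ ℤ (List.map fun p => g • p) ∘ₗ Fl S φ 0) x fun v _ => ?_
    change Fl S φ 0 ((Finsupp.single v 1).mapDomain fun e => g • e) =
      (Fl S φ 0 (Finsupp.single v 1)).mapDomain (List.map fun p => g • p)
    rw [Finsupp.mapDomain_single, Fl_zero, Fl_zero, Finsupp.mapDomain_single, hφ]
    rfl
  | succ i ih =>
    refine eq_of_support (Fl S φ (i + 1) ∘ₗ Finsupp.lmapDomain ℤ ℤ (fun e => g • e))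
      (Finsupp.lmapDomain ℤ ℤ (List.map fun p => g • p) ∘ₗ Fl S φ (i + 1)) x fun e _ => ?_
    change Fl S φ (i + 1) ((Finsupp.single e 1).mapDomain fun e => g • e) =
      (Fl S φ (i + 1) (Finsupp.single e 1)).mapDomain (List.map fun p => g • p)
    rw [Finsupp.mapDomain_single, Fl_succ, Fl_succ, hφ]
    have h1 : S.bd i (Finsupp.single (g • e) 1) =
        (S.bd i (Finsupp.single e 1)).mapDomain (fun e => g • e) := by
      rw [← S.bd_smul, Finsupp.mapDomain_single]
    rw [h1, ih, cone_map (fun p => g • p)]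
    intro p q
    refine ⟨fun h => ?_, hlt g p q⟩
    have := hlt g⁻¹ _ _ h
    rwa [inv_smul_smul, inv_smul_smul] at this

include hmono in
lemma toL_lab (i : ℕ) (x : S.E i →₀ ℤ) : toL (i + 1) (ofL (i + 1) (Fl S φ i x)) = Fl S φ i x := by
  refine toL_ofL _ _ ?_
  intro l hl
  obtain ⟨e, -, h⟩ := Fl_support_sum S φ i x l hl
  obtain ⟨h1, h2, -⟩ := Fl_support S φ hmono i e l h
  exact ⟨h1, h2⟩

lemma toL_smul (n : ℕ) (g : G) (y : Ch P n →₀ ℤ) :
    toL n (y.mapDomain fun e => (chAct (G := G) P hlt n).smul g e) =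
      (toL n y).mapDomain (List.map fun p => g • p) := by
  unfold toL
  rw [Finsupp.lmapDomain_apply, Finsupp.lmapDomain_apply, ← Finsupp.mapDomain_comp,
    ← Finsupp.mapDomain_comp]
  rfl

include hmono hφ in
/-- the chain map to the order complex -/
theorem labelMap : Nonempty (EquivMap S (orderComplex (G := G) P hlt)) := by
  refine ⟨
  { f := fun i => (ofL (i + 1)).comp (Fl S φ i).toAddMonoidHom
    f_smul := ?_
    f_bd := ?_
    deg := 1
    deg_ne_zero := one_ne_zero
    f_aug := ?_ }⟩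
  · intro i g x
    apply toL_injective
    refine (toL_lab S φ hmono i _).trans ?_
    refine Eq.trans ?_ (toL_smul hlt (i + 1) g _).symm
    rw [Fl_smul S φ hlt hφ]
    congr 1
    exact (toL_lab S φ hmono i x).symm
  · intro i x
    apply toL_injective
    refine (toL_lab S φ hmono i _).trans ?_
    refine Eq.trans ?_ (toL_chBd (i + 1) _).symm
    rw [← D_Fl_succ S φ hmono]
    congr 1
    exact (toL_lab S φ hmono (i + 1) x).symm
  · intro x
    have h := D_toL_one (ofL 1 (Fl S φ 0 x))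
    rw [show toL 1 (ofL 1 (Fl S φ 0 x)) = Fl S φ 0 x from toL_lab S φ hmono 0 x, D_Fl_zero] at h
    have h2 := congrArg (fun y : List P →₀ ℤ => y []) h
    simp only [Finsupp.single_eq_same] at h2
    rw [one_mul]
    exact h2.symm

end label

section stab

variable {G : Type} [Group G] {P : Type} [PartialOrder P] [MulAction G P]
  (hlt : ∀ (g : G) (p q : P), p < q → g • p < g • q)

lemma map_eq_self {A : Type} (u : A → A) (l : List A) : l.map u = l ↔ ∀ p ∈ l, u p = p := by
  induction l with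
  | nil => simp
  | cons a l ih => simp [ih]

lemma stab_eq (n : ℕ) (l : Ch P n) :
    @MulAction.stabilizer G (Ch P n) _ (chAct P hlt n) l =
      ⨅ p ∈ l.1, MulAction.stabilizer G p := by
  ext g
  rw [@MulAction.mem_stabilizer_iff G (Ch P n) _ (chAct P hlt n)]
  simp only [Subgroup.mem_iInf, MulAction.mem_stabilizer_iff]
  rw [← map_eq_self (fun p => g • p) l.1]
  constructor
  · intro h; exact congrArg Subtype.val h
  · intro h; exact Subtype.ext h

lemma infinite_quotient {H K : Subgroup G} (h : H ≤ K) (hK : Infinite (G ⧸ K)) :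
    Infinite (G ⧸ H) := by
  refine Infinite.of_surjective (fun x : G ⧸ H => Quotient.liftOn' x
    (fun g => (QuotientGroup.mk g : G ⧸ K)) ?_) ?_
  · intro a b hab
    rw [QuotientGroup.leftRel_apply] at hab
    exact QuotientGroup.eq.2 (h hab)
  · intro y
    obtain ⟨g, rfl⟩ := QuotientGroup.mk_surjective y
    exact ⟨QuotientGroup.mk g, rfl⟩

end stab

/-- **Labels in a poset.** -/
theorem main_label {G : Type} [Group G] (X : FinRes G) {S : PermComplex G} (hS : S.IsAcyclic)
    {P : Type} [PartialOrder P] [MulAction G P]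
    (hlt : ∀ (g : G) (p q : P), p < q → g • p < g • q)
    (φ : ∀ i, S.E i → P)
    (hφ : ∀ (i : ℕ) (g : G) (e : S.E i), φ i (g • e) = g • φ i e)
    (hmono : ∀ (i : ℕ) (e : S.E (i + 1)) (e' : S.E i),
      S.bd i (Finsupp.single e 1) e' ≠ 0 → φ i e' ≤ φ (i + 1) e)
    (h0 : ∀ p : P, Infinite (G ⧸ MulAction.stabilizer G p))
    (h12 : ∀ i, i = 1 ∨ i = 2 → ∀ l : List P, l.length = i + 1 → l.Pairwise (fun a b => b < a) →
      IsAmenable (⨅ p ∈ l, MulAction.stabilizer G p : Subgroup G) ∨
        RatVanish X (⨅ p ∈ l, MulAction.stabilizer G p) i)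
    (h3 : ∀ i, 3 ≤ i → ∀ l : List P, l.length = i + 1 → l.Pairwise (fun a b => b < a) →
      RatVanish X (⨅ p ∈ l, MulAction.stabilizer G p) i) :
    ∃ i ≤ 2, Nontrivial (X.homology (toRed G) i) := by
  obtain ⟨F⟩ := labelMap S φ hmono hlt hφ
  have hinf' : ∀ (i : ℕ) (e : (orderComplex P hlt).E i),
      Infinite (G ⧸ MulAction.stabilizer G e) := by
    intro i e
    obtain ⟨l, h1, h2⟩ := e
    have h3 : l ≠ [] := by
      rintro rfl
      simp at h1
    obtain ⟨p, l', rfl⟩ := List.exists_cons_of_ne_nil h3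
    have h4 := stab_eq (G := G) hlt (i + 1) ⟨p :: l', h1, h2⟩
    refine infinite_quotient (h4.le.trans ?_) (h0 p)
    exact iInf₂_le p List.mem_cons_self
  refine main_map X hS F (hinf' 0) ?_ ?_
  · intro i hi e
    have h6 := hinf' i e
    obtain ⟨l, h1, h2⟩ := e
    have h4 := stab_eq (G := G) hlt (i + 1) ⟨l, h1, h2⟩
    rcases h12 i hi l h1 h2 with h5 | h5
    · exact Or.inl ⟨isAmenable_mono h5 h4.le, h6⟩
    · right
      rw [← h4] at h5
      exact h5
  · intro i hi e
    obtain ⟨l, h1, h2⟩ := e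
    have h4 := stab_eq (G := G) hlt (i + 1) ⟨l, h1, h2⟩
    have h5 := h3 i hi l h1 h2
    rw [← h4] at h5
    exact h5

end Pool.Agent.H82.ZC
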